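import Pool.Agent.helper19.QP.SpecM

/-! Row qm:ODD. -/

set_option autoImplicit false

open Polynomial Pool.Agent.helper7.IG

noncomputable section

namespace Pool.Agent.QP

theorem ODD_sum (β : ℕ → kk) (hβ : ∀ m : ℕ, β m ≠ 0 → Odd m) (a m : ℕ) (hm : m ≠ 0) :
    ∑ d ∈ (2 ^ a * m).divisors, β d = ∑ d ∈ m.divisors, β d := by
  symm
  refine Finset.sum_subset ?_ ?_
  · exact Nat.divisors_subset_of_dvd (mul_ne_zero (pow_ne_zero _ two_ne_zero) hm) (Dvd.intro_left _ rfl)
  · intro d hd hd'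
    by_contra hne
    have hodd := hβ d hne
    apply hd'
    rw [Nat.mem_divisors]
    refine ⟨?_, hm⟩
    have hc : Nat.Coprime d (2 ^ a) := Nat.Coprime.pow_right a hodd.coprime_two_right
    exact hc.dvd_of_dvd_mul_left (Nat.dvd_of_mem_divisors hd)

theorem ODD : ODD_stmt := by
  intro F β N hneg hdiv hβ hnc
  -- a nonzero coefficient
  obtain ⟨n, hn0, hn⟩ : ∃ n : ℤ, n ≠ 0 ∧ (PN N F).coeff n ≠ 0 := by
    by_contra hcon
    push Not at hcon
    apply hnc ((PN N F).coeff 0)
    ext n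
    have h1 : (algebraMap kk LL ((PN N F).coeff 0)) = HahnSeries.single 0 ((PN N F).coeff 0) := by
      rw [HahnSeries.algebraMap_apply, Algebra.algebraMap_self_apply]
      rfl
    rw [h1, HahnSeries.coeff_single]
    split_ifs with h2
    · rw [h2]
    · exact hcon n h2
  rw [PN_coeff] at hn
  split_ifs at hn with hg
  · -- `n > 0`
    have hpos : 0 ≤ n := by
      by_contra hlt
      exact hn (hneg n (by omega))
    obtain ⟨m, rfl⟩ := Int.eq_ofNat_of_zero_le hpos
    have hm0 : m ≠ 0 := by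
      intro h0
      exact hn0 (by rw [h0]; rfl)
    obtain ⟨a, m', hodd, hmm⟩ := Nat.exists_eq_two_pow_mul_odd hm0
    have hm'0 : m' ≠ 0 := by
      intro h0
      exact hm0 (by rw [hmm, h0, mul_zero])
    refine ⟨(m' : ℤ), by exact_mod_cast hodd, ?_⟩
    rw [PN_coeff, if_pos]
    · rw [hdiv m' (Nat.pos_of_ne_zero hm'0), ← ODD_sum β hβ a m' hm'0, ← hmm,
        ← hdiv m (Nat.pos_of_ne_zero hm0)]
      exact hn
    · have h3 : Nat.Coprime m N := by
        have := hg
        rwa [Int.gcd_natCast_natCast] at this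
      rw [Int.gcd_natCast_natCast]
      exact Nat.Coprime.coprime_dvd_left (by rw [hmm]; exact Dvd.intro_left _ rfl) h3
  · exact absurd rfl hn

end Pool.Agent.QP
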